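import Pool.Agent.W541.DL.Stm

/-!
Project DL (MP_cd6101_pr), part DIAG.
-/

namespace Pool.Agent.W391.DL.DIAG

open MeasureTheory ProbabilityTheory Filter Topology
open Pool.Agent.W541.DL

theorem blpp_zero (w : ℕ → ℝ → ℝ) (s : ℝ) : blpp w 0 s s = 0 := by
  unfold blpp supK
  have h : pathVal w 0 '' paths 0 s s = {0} := by
    ext x
    constructor
    · rintro ⟨τ, -, rfl⟩
      simp [pathVal]
    · intro hx
      exact ⟨fun _ => s, ⟨monotone_const, rfl, rfl⟩, by rw [Set.mem_singleton_iff.1 hx]; simp [pathVal]⟩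
  rw [h, csSup_singleton]

theorem pre (w : ℕ → ℝ → ℝ) (m : ℕ) : preSheet w m 0 0 =
    (m : ℝ) ^ ((1 : ℝ) / 6) * (supK w m (paths m 0 1) - 2 * Real.sqrt m) := by
  unfold preSheet blpp
  simp

theorem scal (m n : ℕ) (hm : 1 ≤ m) (hn : 1 ≤ n) (M : ℝ) :
    (n : ℝ) ^ ((1 : ℝ) / 6) * (Real.sqrt ((m : ℝ) / n) * M - Real.sqrt n * ((m : ℝ) / n) -
      (m : ℝ) / Real.sqrt n) =
    ((m : ℝ) / n) ^ ((1 : ℝ) / 3) * ((m : ℝ) ^ ((1 : ℝ) / 6) * (M - 2 * Real.sqrt m)) := by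
  have hm' : (0 : ℝ) < m := by exact_mod_cast hm
  have hn' : (0 : ℝ) < n := by exact_mod_cast hn
  have h1 : Real.sqrt n * ((m : ℝ) / n) = (m : ℝ) / Real.sqrt n := by
    have : Real.sqrt n * Real.sqrt n = n := Real.mul_self_sqrt hn'.le
    have h0 : Real.sqrt n ≠ 0 := (Real.sqrt_pos.2 hn').ne'
    field_simp
    nlinarith [this]
  have h2 : (m : ℝ) / Real.sqrt n = Real.sqrt ((m : ℝ) / n) * Real.sqrt m := by
    rw [Real.sqrt_div hm'.le, div_mul_eq_mul_div, Real.mul_self_sqrt hm'.le]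
  have h3 : (n : ℝ) ^ ((1 : ℝ) / 6) * Real.sqrt ((m : ℝ) / n) =
      ((m : ℝ) / n) ^ ((1 : ℝ) / 3) * (m : ℝ) ^ ((1 : ℝ) / 6) := by
    rw [Real.sqrt_eq_rpow, Real.div_rpow hm'.le hn'.le, Real.div_rpow hm'.le hn'.le]
    have e1 : (m : ℝ) ^ ((1 : ℝ) / 2) = (m : ℝ) ^ ((1 : ℝ) / 3) * (m : ℝ) ^ ((1 : ℝ) / 6) := by
      rw [← Real.rpow_add hm']
      norm_num
    have e2 : (n : ℝ) ^ ((1 : ℝ) / 2) = (n : ℝ) ^ ((1 : ℝ) / 3) * (n : ℝ) ^ ((1 : ℝ) / 6) := by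
      rw [← Real.rpow_add hn']
      norm_num
    rw [e1, e2]
    have p1 : (n : ℝ) ^ ((1 : ℝ) / 3) ≠ 0 := (Real.rpow_pos_of_pos hn' _).ne'
    have p2 : (n : ℝ) ^ ((1 : ℝ) / 6) ≠ 0 := (Real.rpow_pos_of_pos hn' _).ne'
    field_simp
  rw [h1, h2, ← mul_assoc, ← h3]
  ring

theorem main (hL : S_LAWK) (hC : S_SCB) (hD : S_SCD) : S_DIAG := by
  intro Ω _ P W c n a m s hW hT hn hmn
  have hP : IsProbabilityMeasure P := hW.gauss.isProbabilityMeasure
  rcases Nat.eq_zero_or_pos m with rfl | hm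
  · have h : {ω | -c ≤ bar (env W ω) n a 0 s (s + ((0 : ℕ) : ℝ) / n)} = Set.univ := by
      refine Set.eq_univ_of_forall fun ω => ?_
      change -c ≤ bar (env W ω) n a 0 s (s + ((0 : ℕ) : ℝ) / n)
      have e : s + ((0 : ℕ) : ℝ) / n = s := by simp
      rw [e, bar, blpp_zero]
      simp [hT.1]
    rw [h, probReal_univ]
    norm_num
  · have hm' : (0 : ℝ) < m := by exact_mod_cast hm
    have hn' : (0 : ℝ) < n := by exact_mod_cast hn
    have hd : (0 : ℝ) < (m : ℝ) / n := by positivity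
    have hW' := hC Ω P W a s ((m : ℝ) / n) hW hd
    have hI := hL Ω P _ W m (paths m 0 1) hW' hW
    let S : Set ℝ := {x | -c ≤ (m : ℝ) ^ ((1 : ℝ) / 6) * (x - 2 * Real.sqrt m)}
    have hS : MeasurableSet S := by
      refine measurableSet_le measurable_const ?_
      fun_prop
    have h1 := hI.measure_mem_eq hS
    have h2 := hT.2 m hm
    have h3 : {ω | -c ≤ preSheet (env W ω) m 0 0} =
        (fun ω => supK (env W ω) m (paths m 0 1)) ⁻¹' S := by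
      ext ω
      simp only [Set.mem_ofPred_eq, Set.mem_preimage, S, pre]
    rw [h3, measureReal_def, ← h1, ← measureReal_def] at h2
    refine h2.trans (measureReal_mono ?_)
    intro ω hω
    change -c ≤ (m : ℝ) ^ ((1 : ℝ) / 6) * (supK _ m (paths m 0 1) - 2 * Real.sqrt m) at hω
    change -c ≤ bar (env W ω) n a m s (s + (m : ℝ) / n)
    rw [bar, hD (env W ω) a m s ((m : ℝ) / n) hd, add_sub_cancel_left, scal m n hm hn]
    have hr0 : 0 ≤ ((m : ℝ) / n) ^ ((1 : ℝ) / 3) := by positivity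
    have hr1 : ((m : ℝ) / n) ^ ((1 : ℝ) / 3) ≤ 1 := by
      refine Real.rpow_le_one hd.le ?_ (by norm_num)
      rw [div_le_one hn']
      exact_mod_cast hmn
    have hc := hT.1
    change -c ≤ ((m : ℝ) / n) ^ ((1 : ℝ) / 3) * ((m : ℝ) ^ ((1 : ℝ) / 6) *
      (supK (env (fun k t ω => (W (a + k) (s + (m : ℝ) / n * t) ω - W (a + k) s ω) /
        Real.sqrt ((m : ℝ) / n)) ω) m (paths m 0 1) - 2 * Real.sqrt m))
    nlinarith [hω]

end Pool.Agent.W391.DL.DIAG
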